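import Pool.Agent.Helper88.P3.Amal

/-!
# MP_121524_al : the Freiheitssatz for cubes, letters of the first factor in `PGL(3, ℂ)`

Let `A` and `B` be groups, `A₀` and `B₀` subgroups, `r` an element of `A₀ * B₀` and `φ` a homomorphism from
`B₀` to the group of order three, such that `r` is not in the kernel of the homomorphism from `A₀ * B₀` to the
group of order three which is trivial on `A₀` and equal to `φ` on `B₀`. Suppose that every nontrivial
element of `A₀` has a nontrivial image under some homomorphism from `A₀` to `PGL(3, ℂ)` (for instance
`A₀` is a subgroup of `GL(2, ℂ)` or of `PGL(3, ℂ)`), and that `B₀ = B` or the image of `r` in `B₀` has cube one. Then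
`A` embeds in `(A * B) / ⟨⟨r ^ m⟩⟩` for every `m` divisible by three. By known results only `m = 3` is
new, for `r` with letters of order two.

Idea of the proof. Amalgamated products reduce to `A = A₀`, `B = B₀`. A matrix `M` in `GL(3, ℂ)` with
`tr M = tr M⁻¹ = 0` has a scalar cube, by the theorem of Cayley and Hamilton. One may replace `B` by
the group of order three, generated by `x`. Fix a homomorphism `A → PGL(3, ℂ)` and send `x` to a matrix `X`
conjugate to `diag (1, ω, ω²)`. The pair `f(X)` of `tr r(X)` and the complex conjugate of `tr r(X)⁻¹`
satisfies `f(ω X) = c f(X)`, with a cube root of unity `c ≠ 1`. Such an `f` has a zero. Indeed,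
`X(u) = h(u) P h(u)⁻¹`, where `P` is the matrix of the cyclic permutation and `h(u)` in `SU(2)` is placed in
the lower right corner of `SU(3)`, is a `ℤ/3`-equivariant map of the sphere `S³` to the conjugacy
class. If `f` had no zero, `f(X(u))` would be an equivariant map from `S³` to `ℂ² \ 0`, and would be
homotopic (move `P` in its conjugacy class to the diagonal matrix `D`) to the map `f(h(u) D h(u)⁻¹)`,
which factors through the Hopf map `S³ → S²` and so is homotopic to a constant. This contradicts
the theorem of Borsuk and Ulam for `ℤ/3`.
-/

set_option autoImplicit false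

namespace Pool.Agent.Results.MP_121524_al.CubesPGLThree

open Pool.Agent.Helper88.P3

universe u v

/-- The Freiheitssatz for one-relator products with a relator `r ^ m`, `m` divisible by three, for
arbitrary groups `A`, `B` and an element `r` of `A₀ * B₀`, where the elements of the subgroup `A₀` of `A` are
separated by homomorphisms to `PGL(3, ℂ)` and `r` is not killed by the homomorphism to the group of
order three given by the trivial map on `A₀` and some `φ` on `B₀`. -/
theorem result :
    ∀ (A : Type u) (B : Type v) [Group A] [Group B] (A₀ : Subgroup A) (B₀ : Subgroup B),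
      (∀ a : A₀, a ≠ 1 → ∃ ρ : A₀ →* PGL3, ρ a ≠ 1) →
      ∀ (φ : B₀ →* Multiplicative (ZMod 3)) (r : Monoid.Coprod A₀ B₀),
        Monoid.Coprod.lift (1 : A₀ →* Multiplicative (ZMod 3)) φ r ≠ 1 →
        (B₀ = ⊤ ∨ Monoid.Coprod.snd r ^ 3 = 1) →
        ∀ m : ℕ, 3 ∣ m →
          Function.Injective
            ((QuotientGroup.mk' (Subgroup.normalClosure
                ({Monoid.Coprod.map A₀.subtype B₀.subtype r ^ m} : Set (Monoid.Coprod A B)))).comp
              (Monoid.Coprod.inl : A →* Monoid.Coprod A B)) := by
  intro A B _ _ A₀ B₀ hA φ r hr hB m hm
  exact main_sub A₀ B₀ hA φ r hr hB m hm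

end Pool.Agent.Results.MP_121524_al.CubesPGLThree
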