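import Pool.Agent.Helper8.FH.All
import Pool.Agent.Helper8.FH.Alg
import Pool.Agent.Helper8.FH.Loc
import Pool.Agent.Helper8.FH.Rf
import Pool.Agent.Helper62.FH.Aut
import Pool.Agent.Helper32.FH.Par
import Pool.Agent.Helper38.FH.Trd
import Pool.Agent.Helper14.FH.Uni
import Pool.Agent.Helper14.FH.Fin
import Pool.Agent.Helper12.FH.Quo

/-!
# MP_121524_al : the Freiheitssatz for even powers, hyperlinear first factor

Let `A` be a hyperlinear group (for instance a residually finite group), `B` any group, and let
`r` be an element of `A * B` whose `B`-part is not killed by some homomorphism `B → ℤ/2`, that is,
`r` is not in the kernel of the homomorphism `A * B → ℤ/2` which is trivial on `A` and equal to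
`φ` on `B`. Then `A` embeds in `(A * B) / ⟨⟨r ^ m⟩⟩` for every even `m`, in particular for `m = 2`.

Idea of the proof. One may replace `B` by the group of order two, generated by `b`, and
`r` by a word `a₀ b a₁ b ⋯ aₖ b` with an odd number of factors. For all `a₀, …, aₖ` in `SO(2n)`
there is an involution `x` in `O(2n)` such that `a₀ x a₁ x ⋯ aₖ x` is an involution. This holds since a
map from a product of two Grassmannians to `SO(2n)` of equal dimension, homotopic to the product
of two involutions, has odd degree. The oddness is used in the following algebraic form: for
parameters which are algebraically independent over `ℚ` and near a base point there is exactly one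
real solution, it is algebraic over the field of the parameters, so its orbit under the field
automorphisms of `ℂ` which fix the parameters is finite and odd (complex conjugation has exactly
one fixed point in it). After a rational translation of the parameters by a field automorphism of
`ℂ` there is again a solution fixed by complex conjugation. Density of the rational
translates and compactness finish the proof. Hyperlinear groups are reached by a metric reduced
product of orthogonal groups.
-/

set_option autoImplicit false

namespace Pool.Agent.Results.MP_121524_al.HyperlinearEvenPowers

open Pool.Agent.Helper8.FH

universe u v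

/-- The Freiheitssatz for one-relator products with an even power as relator, for a hyperlinear
group `A`, any group `B`, and an element `r` of `A * B` which is not killed by the
homomorphism to the group of order two given by the trivial map on `A` and some `φ` on `B`. -/
theorem result :
    ∀ (A : Type u) (B : Type v) [Group A] [Group B], Hyperlinear A →
      ∀ (φ : B →* Multiplicative (ZMod 2)) (r : Monoid.Coprod A B),
        Monoid.Coprod.lift (1 : A →* Multiplicative (ZMod 2)) φ r ≠ 1 →
        ∀ m : ℕ, Even m →
          Function.Injective
            ((QuotientGroup.mk'
                (Subgroup.normalClosure ({r ^ m} : Set (Monoid.Coprod A B)))).comp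
              (Monoid.Coprod.inl : A →* Monoid.Coprod A B)) :=
  Pool.Agent.Helper14.FH.st_fin (Pool.Agent.Helper12.FH.st_quo (Pool.Agent.Helper14.FH.st_uni
    (st_all (Pool.Agent.Helper32.FH.st_par Pool.Agent.Helper62.FH.st_aut)
      (st_alg Pool.Agent.Helper38.FH.st_trd) st_loc st_cpt Pool.Agent.Helper62.FH.st_gen)))

end Pool.Agent.Results.MP_121524_al.HyperlinearEvenPowers
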