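import Pool.Agent.Helper37.OF.All2

/-!
# MP_121524_al : the Freiheitssatz for `r ^ m` when `r` is killed in a left orderable group

Let `A`, `B` be groups, `A₀ ≤ A`, `B₀ ≤ B` subgroups, `r = a₁ b₁ ... a_n b_n` with letters `a_i ∈ A₀`,
`b_i ∈ B₀`, `m ≥ 2`, and let `π : A₀ * B₀ → Q` be a homomorphism to a left ordered group with `π r = 1`.
Let `K`, `L` be the kernels of `π` on `A₀` and on `B₀`. Then `A → (A * B) / ⟨⟨r ^ m⟩⟩` is injective in the
following cases.

(I) Every `a ≠ 1` in `K` has a nontrivial image under some homomorphism `K → PGL(2, k)`, `k` a field, and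
the same homomorphism, with some `L → PGL(2, k)`, kills no conjugate of a letter of `r`; and `B₀ = B`
or the elements of `L` are separated in the same way. For instance: `A` and `B` have normal
subgroups `K`, `L` which embed in `PGL(2, k)`, the quotients are left orderable, and `r` is in the kernel
of `A * B → A/K * B/L`.

(II) `A`, `B`, `K`, `L` are arbitrary, and the top and the bottom of the path of `r` in `Q` are simple. The
path: `w_i` is the image of `a_(i+1) b_(i+1) ... a_n b_n`, and `v_i = π b_i w_i`. A point is simple if it is
none of the `v_i`, or none of the `w_i`, or exactly one of the `v_i` and exactly one of the `w_i`. For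
instance: `A` is any group, `B` is infinite cyclic, `r` has exponent sum `0` in the generator of `B` and
its path (the partial exponent sums) has exactly one maximum and one minimum.

Idea of the proof. We may assume `A = A₀`, `B = B₀` (amalgams). Let `G = PGL(2, k)` in case (I), and
`G = (K × L) * ℤ` in case (II), and let `F` be the free product of `G` and of copies `G_q` of `G`, `q ∈ Q`,
`e_q ∈ G_q` the image of a fixed element (any element `≠ 1`, the generator of `ℤ`). Kaloujnine and
Krasner: cocycles `A × Q → K → G ⊆ F` and `B × Q → L → G`, the second one changed by the coboundary of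
`q ↦ e_q`, give a homomorphism from `A * B` to the wreath product of `F` and `Q`, in which `r ^ m`
becomes the function `q ↦ R_q ^ m`; the element `R_q` is a cyclically reduced word which involves exactly
the copies `G_(c q)`, `c` in the finite set `S = {v_i, w_i}`. By the order of `Q` the smallest and the
largest element of `S q` increase with `q`. So finitely many relators `R_q ^ m` are staggered, and by
amalgamated products (as in the proof of Magnus' theorem) `G` embeds in the quotient of `F` by the
relators `R_q ^ m` if a local statement holds for the largest and for the smallest point `z` of `S q`: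
the free product of the copies different from `G_z` embeds in `F / ⟨⟨R_q ^ m⟩⟩`. In case (I) finite free
products of copies of `PGL(2, k)` embed in `PGL(2, k')`, and the local statement is the theorem of Fine,
Howie and Rosenberger in arbitrary characteristic. In case (II) `R_q` is conjugate to a word
`u₁ e_z u₂ e_z ... u_n e_z` (Levin's theorem on positive equations), or the same with `e_z⁻¹`, or to
`u₁ e_z u₂ e_z⁻¹` (triangle groups and HNN extensions).
-/

set_option autoImplicit false

namespace Pool.Agent.Results.MP_121524_al.OrderableQuotient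

open Monoid

universe u v w x

/-- `PGL(2, k)`: the group of units of the ring of `2 × 2` matrices modulo its centre. -/
abbrev PGL2 (k : Type w) [CommRing k] : Type w := Matrix.ProjGenLinGroup (Fin 2) k

/-- The element `a₁ b₁ a₂ b₂ ... a_n b_n` of the free product. -/
def word {G : Type u} {H : Type v} [Group G] [Group H] (l : List (G × H)) : Coprod G H :=
  (l.map fun p => (Coprod.inl p.1 * Coprod.inr p.2 : Coprod G H)).prod

/-- `f` kills no conjugate of an element of the list (among those which are in the kernel of `π`, where
`f` is defined). -/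
def Spares {G : Type u} {Q : Type x} {P : Type w} [Group G] [Group Q] [Group P] (π : G →* Q)
    (f : π.ker →* P) (L : List G) : Prop :=
  ∀ a ∈ L, ∀ (c : G) (h : c⁻¹ * a * c ∈ π.ker), f ⟨c⁻¹ * a * c, h⟩ ≠ 1

section Path

variable {G : Type u} {H : Type v} {Q : Type x} [Group G] [Group H] [Group Q]

/-- The point `w_i`: the image in `Q` of the part of the word after the letter `b_i`. -/
def wPt (πG : G →* Q) (πH : H →* Q) (l : List (G × H)) (i : Fin l.length) : Q :=
  Coprod.lift πG πH (word (l.drop (i + 1)))

/-- The point `v_i`: the image in `Q` of the part of the word which begins with the letter `b_i`. -/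
def vPt (πG : G →* Q) (πH : H →* Q) (l : List (G × H)) (i : Fin l.length) : Q :=
  πH (l.get i).2 * wPt πG πH l i

/-- `z` is one of the points `v_i`, `w_i`. -/
def IsPt (πG : G →* Q) (πH : H →* Q) (l : List (G × H)) (z : Q) : Prop :=
  (∃ i, vPt πG πH l i = z) ∨ ∃ i, wPt πG πH l i = z

/-- `z` is simple: it is no `v_i`, or no `w_i`, or exactly one `v_i` and exactly one `w_i`. -/
def IsSimple (πG : G →* Q) (πH : H →* Q) (l : List (G × H)) (z : Q) : Prop :=
  (∀ i, vPt πG πH l i ≠ z) ∨ (∀ i, wPt πG πH l i ≠ z) ∨
    ((∃! i, vPt πG πH l i = z) ∧ ∃! i, wPt πG πH l i = z)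

end Path

/-- The Freiheitssatz for one-relator products with relator `r ^ m`, `m ≥ 2`, `r = word l`, when `r` is
killed by a homomorphism `π = Coprod.lift πA πB` to a left ordered group `Q` and (I) the kernels of `πA`,
`πB` are separated by homomorphisms to `PGL(2, k)` which kill no conjugate of a letter of `r`, or (II) all
points `z` of the path such that `z q` is the largest or the smallest one for some `q` are simple. -/
theorem result :
    ∀ (A : Type u) (B : Type v) (Q : Type x) [Group A] [Group B] [Group Q] [LinearOrder Q],
      (∀ a b c : Q, b < c → a * b < a * c) →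
      ∀ (A₀ : Subgroup A) (B₀ : Subgroup B) (l : List (A₀ × B₀)), l ≠ [] → ∀ m : ℕ, 2 ≤ m →
      ∀ (πA : A₀ →* Q) (πB : B₀ →* Q), Coprod.lift πA πB (word l) = 1 →
      (((∀ a : πA.ker, a ≠ 1 → ∃ (k : Type w) (_ : Field k) (f : πA.ker →* PGL2 k)
          (g : πB.ker →* PGL2 k),
          f a ≠ 1 ∧ Spares πA f (l.map Prod.fst) ∧ Spares πB g (l.map Prod.snd)) ∧
        (B₀ = ⊤ ∨ Coprod.snd (word l) ^ m = 1 ∨
          ∀ b : πB.ker, b ≠ 1 → ∃ (k : Type w) (_ : Field k) (f : πA.ker →* PGL2 k)
            (g : πB.ker →* PGL2 k),
            g b ≠ 1 ∧ Spares πA f (l.map Prod.fst) ∧ Spares πB g (l.map Prod.snd))) ∨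
       ((∀ p ∈ l, p.1 ≠ 1 ∧ p.2 ≠ 1) ∧
        ∀ q z : Q, IsPt πA πB l z →
          ((∀ z', IsPt πA πB l z' → z' * q ≤ z * q) ∨
            ∀ z', IsPt πA πB l z' → z * q ≤ z' * q) → IsSimple πA πB l z)) →
      Function.Injective
        ((QuotientGroup.mk' (Subgroup.normalClosure
            ({Coprod.map A₀.subtype B₀.subtype (word l) ^ m} : Set (Coprod A B)))).comp
          (Coprod.inl : A →* Coprod A B)) :=
  Pool.Agent.Helper37.OF.final2

end Pool.Agent.Results.MP_121524_al.OrderableQuotient
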