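import Pool.Agent.Helper4.FS.Fin

/-!
# MP_121524_al : the Freiheitssatz for `r ^ m`, letters in `PGL(2, R)` for local rings `R`

Let `A`, `B` be groups, `A₀ ≤ A`, `B₀ ≤ B` subgroups (those generated by the letters), `r ∈ A₀ * B₀` not
conjugate in `A * B` to an element of `A`, and `m ≥ 2`. Suppose that for every `a ≠ 1` in `A₀` there are a
commutative local ring `R` with residue field `k` (of any characteristic) and homomorphisms
`α : A₀ → PGL(2, R)`, `β : B₀ → PGL(2, R)` with `α a ≠ 1` such that the image of `r` in
`PGL(2, k) * PGL(2, k)` is not conjugate to an element of a factor, or `A₀ → PGL(2, k)` and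
`B₀ → PGL(2, k)` are injective. Suppose also that `B₀ = B`, or that the image of `r` in `B₀` has
`m`-th power one, or that the elements `b ≠ 1` of `B₀` are separated in the same way. Then
`A → (A * B) / ⟨⟨r ^ m⟩⟩` is injective.

In particular (`R = k` a field, e.g. of positive characteristic) the question has a positive answer
whenever the letters of `r` generate subgroups of `A` and `B` which embed in `PGL(2, k)` for one field `k`, for
instance in `PSL(2, q)`, in an affine group, or if they are elementary abelian `p`-groups. For rings with
nilpotent elements the groups `A₀` need not be linear of degree two over fields.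

Idea of the proof. Amalgamated products reduce to `A = A₀`, `B = B₀`. Conjugate `β` by the matrix
`u(x) l(y) u(z)`, `u`, `l` upper and lower unitriangular, over `R[x, z, y]`. Let `W` be a lift of the image of
`r` to `GL(2, R[x, z, y])` and `P = U_m(tr W, det W)`, where `U_m` is the Lucas polynomial; by the theorem
of Cayley and Hamilton `W ^ m` is a scalar matrix modulo `P`. Over the residue field `P` is, up to units,
the same polynomial for a cyclically reduced word, and is of positive degree in `y`. So the reduction
of `P` is neither zero nor a unit, and by McCoy's theorem `R → R[x, z, y] / (P)` is injective: if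
`c = P Q` then `c` divides `Q` (`P` is not a zero divisor modulo `c`), `Q = c Q'`, `c (1 - P Q') = 0`,
and if `c ≠ 0` all coefficients of `1 - P Q'` are non-units, so that `P` is a unit over the residue
field, a contradiction. Hence `PGL(2, R)` embeds in `PGL(2, R[x, z, y] / (P))`, where `r ^ m` is killed.
-/

set_option autoImplicit false

namespace Pool.Agent.Results.MP_121524_al.PGLTwoLocal

open Monoid

universe u v w

/-- `PGL(2, R)`: the group of units of the ring of `2 × 2` matrices modulo its centre. -/
abbrev PGL2 (R : Type w) [CommRing R] : Type w := Matrix.ProjGenLinGroup (Fin 2) R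

/-- Reduction modulo the maximal ideal. -/
noncomputable def red (R : Type w) [CommRing R] [IsLocalRing R] :
    PGL2 R →* PGL2 (IsLocalRing.ResidueField R) :=
  QuotientGroup.map _ _ (Matrix.GeneralLinearGroup.map (IsLocalRing.residue R))
    (Matrix.GeneralLinearGroup.map_center_le (IsLocalRing.residue R))

/-- The image of `r` over the residue field is not conjugate to an element of a factor, or both
reductions are injective. -/
def Good {G : Type u} {H : Type v} [Group G] [Group H] (R : Type w) [CommRing R] [IsLocalRing R]
    (α : G →* PGL2 R) (β : H →* PGL2 R) (r : Coprod G H) : Prop :=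
  ((∀ c, ¬ IsConj (Coprod.map ((red R).comp α) ((red R).comp β) r) (Coprod.inl c)) ∧
    ∀ c, ¬ IsConj (Coprod.map ((red R).comp α) ((red R).comp β) r) (Coprod.inr c)) ∨
  (Function.Injective ((red R).comp α) ∧ Function.Injective ((red R).comp β))

/-- The Freiheitssatz for one-relator products with relator `r ^ m`, `m ≥ 2`, where `r` is an element of
`A₀ * B₀` and the elements of `A₀` are separated by homomorphisms to `PGL(2, R)`, `R` local, such that the
image of `r` over the residue field is not conjugate to an element of a factor. -/
theorem result :
    ∀ (A : Type u) (B : Type v) [Group A] [Group B] (A₀ : Subgroup A) (B₀ : Subgroup B)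
      (r : Coprod A₀ B₀),
      (∀ a : A, ¬ IsConj (Coprod.map A₀.subtype B₀.subtype r) (Coprod.inl a)) →
      ∀ m : ℕ, 2 ≤ m →
        (∀ a : A₀, a ≠ 1 → ∃ (R : Type w) (_ : CommRing R) (_ : IsLocalRing R)
          (α : A₀ →* PGL2 R) (β : B₀ →* PGL2 R), α a ≠ 1 ∧ Good R α β r) →
        (B₀ = ⊤ ∨ Coprod.snd r ^ m = 1 ∨
          ∀ b : B₀, b ≠ 1 → ∃ (R : Type w) (_ : CommRing R) (_ : IsLocalRing R)
            (α : A₀ →* PGL2 R) (β : B₀ →* PGL2 R), β b ≠ 1 ∧ Good R α β r) →
        Function.Injective
          ((QuotientGroup.mk' (Subgroup.normalClosure
              ({Coprod.map A₀.subtype B₀.subtype r ^ m} : Set (Coprod A B)))).comp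
            (Coprod.inl : A →* Coprod A B)) := by
  intro A B _ _ A₀ B₀ r hr m hm hA hB
  exact Pool.Agent.Helper4.FS.final A₀ B₀ r hr m hm hA hB

end Pool.Agent.Results.MP_121524_al.PGLTwoLocal
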